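import Pool.Agent.N449.SQ.Final

/-!
# The norms of `ε ^ k - 1`, `0 < k < n`, are prime to the solutions of index `n`
-/

set_option autoImplicit false

namespace Pool.Agent.K6.H86.PL

open QuadraticAlgebra Pool.Agent.N449.SQ

theorem dvd_iff {a : ℤ} (l : ℤ) (z : R a) : (l : R a) ∣ z ↔ l ∣ z.re ∧ l ∣ z.im := by
  constructor
  · rintro ⟨c, rfl⟩
    constructor
    · exact ⟨c.re, by simp⟩
    · exact ⟨c.im, by simp⟩
  · rintro ⟨⟨x, hx⟩, ⟨y, hy⟩⟩
    refine ⟨⟨x, y⟩, ?_⟩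
    ext
    · simp [hx]
    · simp [hy]

theorem reduced {l : ℕ} (hl : l.Prime) (hl2 : l ≠ 2) (z : R 2)
    (h : (((l : ℕ) : ℤ) : R 2) ∣ z * z) : (((l : ℕ) : ℤ) : R 2) ∣ z := by
  have hp : Prime (l : ℤ) := Nat.prime_iff_prime_int.1 hl
  have h2 : ¬ (l : ℤ) ∣ 2 := by
    intro h2
    have h3 : l ∣ 2 := by exact_mod_cast h2
    exact hl2 ((Nat.prime_dvd_prime_iff_eq hl Nat.prime_two).1 h3)
  rw [dvd_iff] at h ⊢
  obtain ⟨h3, h4⟩ := h
  have e1 : (z * z).re = z.re ^ 2 + z.im ^ 2 := by simp; ring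
  have e2 : (z * z).im = 2 * (z.im * (z.re + z.im)) := by simp; ring
  rw [e1] at h3
  rw [e2] at h4
  have h5 : (l : ℤ) ∣ z.im * (z.re + z.im) := (hp.dvd_or_dvd h4).resolve_left h2
  rcases hp.dvd_or_dvd h5 with h6 | h6
  · refine ⟨?_, h6⟩
    have h7 : (l : ℤ) ∣ z.re ^ 2 := by
      have := dvd_sub h3 (Dvd.dvd.mul_right h6 z.im)
      rwa [show z.re ^ 2 + z.im ^ 2 - z.im * z.im = z.re ^ 2 by ring] at this
    exact hp.dvd_of_dvd_pow h7
  · have h7 : (l : ℤ) ∣ 2 * z.im ^ 2 := by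
      have := dvd_sub h3 (Dvd.dvd.mul_right h6 (z.re - z.im))
      rwa [show z.re ^ 2 + z.im ^ 2 - (z.re + z.im) * (z.re - z.im) = 2 * z.im ^ 2 by ring] at this
    have h8 : (l : ℤ) ∣ z.im := hp.dvd_of_dvd_pow ((hp.dvd_or_dvd h7).resolve_left h2)
    refine ⟨?_, h8⟩
    have := dvd_sub h6 h8
    rwa [show z.re + z.im - z.im = z.re by ring] at this

theorem w_two (a : ℤ) : w a 2 = ⟨1, a⟩ := by
  have h : w a 2 = w a 1 * w a 1 := by
    rw [← w_add]
    norm_num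
  have h1 : w a 1 = ⟨0, 1⟩ := by simp [w, wu]
  rw [h, h1]
  ext <;> simp

theorem w_pow (a : ℤ) (k : ℕ) : w a k = w a 1 ^ k := by
  induction k with
  | zero => simp [w_zero]
  | succ k ih =>
    rw [pow_succ, ← ih, ← w_add]
    push_cast
    rfl

theorem u_rel (a : ℤ) {p : ℕ} (hpo : Odd p) :
    w a ((2 * p : ℕ) : ℤ) + 1 = ((U a p : ℤ) : R a) * (dl a * w a p) := by
  have hsw : star (w a p) = -w a (-p) := by
    rw [star_w, hpo.neg_one_pow]; ring
  have hUp : w a p + w a (-p) = ((U a p : ℤ) : R a) * dl a := by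
    have := sub_star' a (w a p)
    rw [(w_re_im a p).1, hsw, sub_neg_eq_add] at this
    exact this
  have h5 : w a p * w a (-p) = 1 := by rw [← w_add, add_neg_cancel, w_zero]
  have h6 : w a ((2 * p : ℕ) : ℤ) = w a p * w a p := by
    rw [← w_add]
    congr 1
    push_cast
    ring
  rw [h6]
  linear_combination (w a p) * hUp - h5

theorem v_rel (a : ℤ) {p : ℕ} (hpo : Odd p) :
    w a ((2 * p : ℕ) : ℤ) - 1 = ((V a p : ℤ) : R a) * w a p := by
  have hsw : star (w a p) = -w a (-p) := by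
    rw [star_w, hpo.neg_one_pow]; ring
  have h5 : w a p * w a (-p) = 1 := by rw [← w_add, add_neg_cancel, w_zero]
  have hVp : w a p - w a (-p) = ((V a p : ℤ) : R a) := by
    rw [← w_add_star, hsw]
    ring
  have h6 : w a ((2 * p : ℕ) : ℤ) = w a p * w a p := by
    rw [← w_add]
    congr 1
    push_cast
    ring
  rw [h6]
  linear_combination (w a p) * hVp + h5

theorem norm_mul_star {a : ℤ} (z : R a) : ((QuadraticAlgebra.norm z : ℤ) : R a) = z * star z := by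
  have := QuadraticAlgebra.algebraMap_norm_eq_mul_star z
  rw [← this]
  simp

/-- The order of `ε` modulo an odd prime divisor of a solution. -/
theorem cop_aux {l n k : ℕ} (hl : l.Prime) (hl2 : l ≠ 2) (hn : n.Prime) (hn2 : n ≠ 2)
    (hk0 : 0 < k) (hkn : k < n)
    (hnorm : ((l : ℕ) : ℤ) ∣ QuadraticAlgebra.norm (w 2 k - 1 : R 2))
    (hF : (((l : ℕ) : ℤ) : R 2) ∣ w 2 ((2 * n : ℕ) : ℤ) + 1 ∨
      (((l : ℕ) : ℤ) : R 2) ∣ w 2 ((2 * n : ℕ) : ℤ) - 1) : False := by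
  set I : Ideal (R 2) := Ideal.span {(((l : ℕ) : ℤ) : R 2)} with hI
  set φ : R 2 →+* R 2 ⧸ I := Ideal.Quotient.mk I with hφ
  have hφ0 : ∀ z, φ z = 0 ↔ (((l : ℕ) : ℤ) : R 2) ∣ z := by
    intro z
    rw [hφ, Ideal.Quotient.eq_zero_iff_mem, hI, Ideal.mem_span_singleton]
  have hred : ∀ z, φ z * φ z = 0 → φ z = 0 := by
    intro z hz
    rw [← map_mul, hφ0] at hz
    rw [hφ0]
    exact reduced hl hl2 z hz
  set e := φ (w 2 1) with he
  have hek : ∀ j : ℕ, φ (w 2 j) = e ^ j := by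
    intro j
    rw [w_pow, map_pow]
  -- `ε ^ (2 k) = 1`
  have h1 : φ (w 2 k - 1) * φ (star (w 2 k - 1 : R 2)) = 0 := by
    rw [← map_mul, ← norm_mul_star, hφ0]
    exact_mod_cast (Int.cast_dvd_cast (α := R 2) _ _ hnorm)
  have h2 : (φ (w 2 k) - 1) * ((-1) ^ k - φ (w 2 k)) = 0 := by
    have h5 : w (2 : ℤ) k * w 2 (-k) = 1 := by rw [← w_add, add_neg_cancel, w_zero]
    have h6 : φ (w 2 k) * φ (w 2 (-(k : ℤ))) = 1 := by rw [← map_mul, h5, map_one]
    rw [star_sub, star_one, star_w, map_sub, map_sub, map_mul, map_pow, map_neg, map_one] at h1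
    linear_combination (φ (w 2 k)) * h1 - ((φ (w 2 k) - 1) * (-1) ^ k) * h6
  have h3 : e ^ (2 * k) = 1 := by
    rw [mul_comm, pow_mul, ← hek]
    rcases Nat.even_or_odd k with hev | hod
    · rw [hev.neg_one_pow] at h2
      have h4 : φ (w 2 k - 1) * φ (w 2 k - 1) = 0 := by
        rw [map_sub, map_one]
        linear_combination (-1 : R 2 ⧸ I) * h2
      have h5 := hred _ h4
      rw [map_sub, map_one, sub_eq_zero] at h5
      rw [h5, one_pow]
    · rw [hod.neg_one_pow] at h2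
      linear_combination (-1 : R 2 ⧸ I) * h2
  -- `ε ^ (4 n) = 1`
  have h4 : e ^ (2 * n) = -1 ∨ e ^ (2 * n) = 1 := by
    rcases hF with h | h
    · left
      rw [← hφ0, map_add, map_one, hek] at h
      exact eq_neg_of_add_eq_zero_left h
    · right
      rw [← hφ0, map_sub, map_one, hek] at h
      exact sub_eq_zero.1 h
  have h5 : e ^ (4 * n) = 1 := by
    have : 4 * n = 2 * n * 2 := by ring
    rw [this, pow_mul]
    rcases h4 with h | h <;> rw [h] <;> norm_num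
  have hcop : Nat.Coprime k n := by
    rw [Nat.coprime_comm, hn.coprime_iff_not_dvd]
    intro h
    have := Nat.le_of_dvd hk0 h
    omega
  have h6 : orderOf e ∣ 4 := by
    have g1 := orderOf_dvd_of_pow_eq_one h3
    have g2 := orderOf_dvd_of_pow_eq_one h5
    have g3 : orderOf e ∣ Nat.gcd (2 * k) (4 * n) := Nat.dvd_gcd g1 g2
    have g4 : Nat.gcd (2 * k) (4 * n) = 2 * Nat.gcd k (2 * n) := by
      rw [← Nat.gcd_mul_left]
      congr 1
      ring
    have g5 : Nat.gcd k (2 * n) ∣ 2 :=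
      Nat.Coprime.dvd_of_dvd_mul_right (Nat.Coprime.coprime_dvd_left (Nat.gcd_dvd_left _ _) hcop)
        (Nat.gcd_dvd_right _ _)
    rw [g4] at g3
    exact g3.trans (Nat.mul_dvd_mul_left 2 g5)
  have h7 : e ^ 4 = 1 := orderOf_dvd_iff_pow_eq_one.1 h6
  have hodd : Odd n := hn.odd_of_ne_two hn2
  obtain ⟨j, hj⟩ := hodd
  have h8 : e ^ (2 * n) = e ^ 2 := by
    have : 2 * n = 4 * j + 2 := by omega
    rw [this, pow_add, pow_mul, h7, one_pow, one_mul]
  rw [h8] at h4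
  have h9 : e ^ 2 = φ (w 2 2) := by
    have := hek 2
    rw [← this]
    rfl
  rw [h9, w_two] at h4
  have hnot : ¬ (l : ℤ) ∣ 2 := by
    intro h
    have h3 : l ∣ 2 := by exact_mod_cast h
    exact hl2 ((Nat.prime_dvd_prime_iff_eq hl Nat.prime_two).1 h3)
  rcases h4 with h | h
  · have h10 : φ ((⟨1, 2⟩ : R 2) + 1) = 0 := by
      rw [map_add, map_one, h]
      ring
    rw [hφ0, dvd_iff] at h10
    exact hnot (by simpa using h10.2)
  · have h10 : φ ((⟨1, 2⟩ : R 2) - 1) = 0 := by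
      rw [map_sub, map_one, h]
      ring
    rw [hφ0, dvd_iff] at h10
    exact hnot (by simpa using h10.2)

theorem cop {n k : ℕ} (hn : n.Prime) (hn2 : n ≠ 2) (hk0 : 0 < k) (hkn : k < n) {F : ℤ}
    (hodd : Odd F) (hF : ((F : ℤ) : R 2) ∣ w 2 ((2 * n : ℕ) : ℤ) + 1 ∨
      ((F : ℤ) : R 2) ∣ w 2 ((2 * n : ℕ) : ℤ) - 1) :
    IsCoprime (QuadraticAlgebra.norm (w 2 k - 1 : R 2)) F := by
  rw [Int.isCoprime_iff_gcd_eq_one]
  by_contra hcon
  obtain ⟨l, hl, hld⟩ := Nat.exists_prime_and_dvd hcon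
  have h1 : (l : ℤ) ∣ QuadraticAlgebra.norm (w 2 k - 1 : R 2) :=
    (Int.natCast_dvd_natCast.2 hld).trans (Int.gcd_dvd_left _ _)
  have h2 : (l : ℤ) ∣ F := (Int.natCast_dvd_natCast.2 hld).trans (Int.gcd_dvd_right _ _)
  have hl2 : l ≠ 2 := by
    rintro rfl
    obtain ⟨c, hc⟩ := h2
    obtain ⟨m, hm⟩ := hodd
    push_cast at hc
    omega
  have h3 : (((l : ℕ) : ℤ) : R 2) ∣ ((F : ℤ) : R 2) := Int.cast_dvd_cast _ _ h2
  exact cop_aux hl hl2 hn hn2 hk0 hkn h1 (hF.imp h3.trans h3.trans)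

theorem odd_U : ∀ n : ℕ, (U 2 n) % 2 = (n : ℤ) % 2
  | 0 => by simp [U]
  | 1 => by simp [U]
  | n + 2 => by
    have h := odd_U n
    rw [U]
    push_cast
    omega

theorem V_mod : ∀ n : ℕ, (V 2 n) % 4 = 2
  | 0 => by simp [V]
  | 1 => by simp [V]
  | n + 2 => by
    have h := V_mod n
    have h' := V_mod (n + 1)
    rw [V]
    omega

end Pool.Agent.K6.H86.PL
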