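import Pool.Agent.K6.H50.SMU.UFinal

/-!
# Multiples of divisors which are sums of few Pell numbers (by helper50, copied from
`Pool/Agent/Results/MP_927e73_nt/SparseMultiples.lean`)
-/

set_option autoImplicit false
set_option maxHeartbeats 4000000

namespace Pool.Agent.K6.H86.PL.Dig

/-- The Lucas sequence `U_n(a, -1)`; `U 2` are the Pell numbers. -/
def U (a : ℤ) : ℕ → ℤ
  | 0 => 0
  | 1 => 1
  | k + 2 => a * U a (k + 1) + U a k

/-- The companion Lucas sequence `V_n(a, -1)`. -/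
def V (a : ℤ) : ℕ → ℤ
  | 0 => 2
  | 1 => a
  | k + 2 => a * V a (k + 1) + V a k

theorem U_eq (a : ℤ) (i : ℕ) : U a i = Pool.Agent.N449.SQ.U a i := by
  induction i using Nat.strong_induction_on with
  | _ i ih =>
    match i with
    | 0 => rfl
    | 1 => rfl
    | i + 2 => rw [U, Pool.Agent.N449.SQ.U, ih (i + 1) (by omega), ih i (by omega)]

theorem V_eq (a : ℤ) (i : ℕ) : V a i = Pool.Agent.N449.SQ.V a i := by
  induction i using Nat.strong_induction_on with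
  | _ i ih =>
    match i with
    | 0 => rfl
    | 1 => rfl
    | i + 2 => rw [V, Pool.Agent.N449.SQ.V, ih (i + 1) (by omega), ih i (by omega)]

theorem pell (n : ℕ) : ((1 : ℝ) + √2) ^ n = (V 2 n : ℝ) / 2 + U 2 n * √2 := by
  have h2 : √(2 : ℝ) ^ 2 = 2 := Real.sq_sqrt (by norm_num)
  have h : ((1 : ℝ) + √2) ^ n = (V 2 n : ℝ) / 2 + U 2 n * √2 ∧
      ((1 : ℝ) + √2) ^ (n + 1) = (V 2 (n + 1) : ℝ) / 2 + U 2 (n + 1) * √2 := by
    induction n with
    | zero => simp [V, U]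
    | succ n ih =>
      refine ⟨ih.2, ?_⟩
      have e : ((1 : ℝ) + √2) ^ (n + 1 + 1) = 2 * (1 + √2) ^ (n + 1) + (1 + √2) ^ n := by
        have : ((1 : ℝ) + √2) ^ 2 = 2 * (1 + √2) + 1 := by linear_combination h2
        rw [show n + 1 + 1 = n + 2 from rfl, pow_add, this]
        ring
      rw [e, ih.1, ih.2, V, U]
      push_cast
      ring
  exact h.1

theorem ident {n : ℕ} {x y : ℤ} (h : (x : ℝ) + y * √2 = (1 + √2) ^ n) :
    y = U 2 n ∧ 2 * x = V 2 n := by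
  have hirr : Irrational √2 := irrational_sqrt_two
  rw [pell] at h
  have hyU : y = U 2 n := by
    by_contra hne
    have h1 : ((y : ℝ) - U 2 n) * √2 = ((V 2 n : ℝ) / 2 - x) := by linarith
    have h2 : ((y : ℝ) - U 2 n) ≠ 0 := by
      intro h0
      apply hne
      have : (y : ℝ) = U 2 n := by linarith
      exact_mod_cast this
    apply hirr
    refine ⟨((V 2 n : ℚ) / 2 - x) / ((y : ℚ) - U 2 n), ?_⟩
    push_cast
    rw [← h1]
    field_simp
  refine ⟨hyU, ?_⟩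
  rw [hyU] at h
  have : (2 : ℝ) * x = V 2 n := by linarith
  exact_mod_cast this

theorem sum_eq (a : ℤ) (S : Finset ℕ) (u u' : ℕ → ℤ) :
    ∑ i ∈ S, (u i * U a i + u' i * U a (i + 1)) =
      ∑ i ∈ S, ((⟨u i, u' i⟩ : Pool.Agent.N449.SQ.R a) * Pool.Agent.N449.SQ.w a i).im := by
  refine Finset.sum_congr rfl fun i _ => ?_
  rw [Pool.Agent.N449.SQ.mul_w_im, U_eq, U_eq]

theorem hs_le {a : ℤ} (ha : 1 ≤ a) (S : Finset ℕ) (u u' : ℕ → ℤ) :
    ∑ i ∈ S, Pool.Agent.N449.SQ.hs a ⟨u i, u' i⟩ ≤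
      ((∑ i ∈ S, (|u i| + (a + 1) * |u' i|) : ℤ) : ℝ) := by
  rw [Int.cast_sum]
  exact Finset.sum_le_sum fun i _ => Pool.Agent.N449.SQ.hs_pair ha _ _

theorem general {a : ℤ} (ha : 1 ≤ a)
    (hV : ∀ (b : ℤ) (r : ℕ), 1 ≤ b → 2 ≤ r → Odd r → V b r ≠ a) {p : ℕ} (hp : p.Prime)
    (hp2 : p ≠ 2) (S : Finset ℕ) (u u' : ℕ → ℤ) (H d : ℕ) (hH : 1 ≤ H) (hHp : H ^ S.card < p)
    (hd : (d : ℤ) ∣ ∑ i ∈ S, (u i * U a i + u' i * U a (i + 1))) :
    ((d : ℤ) ∣ U a p → ¬ U a p ∣ ∑ i ∈ S, (u i * U a i + u' i * U a (i + 1)) →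
      (d : ℝ) ≤ (2 * (∑ i ∈ S, (|u i| + (a + 1) * |u' i|) : ℤ)) ^ (H ^ S.card) *
        ((a + √((a : ℝ) ^ 2 + 4)) / 2) ^ (2 * p / H + H ^ S.card)) ∧
    ((d : ℤ) ∣ V a p → ¬ V a p ∣ 2 * ∑ i ∈ S, (u i * U a i + u' i * U a (i + 1)) →
      (d : ℝ) ≤ ((2 * (∑ i ∈ S, (|u i| + (a + 1) * |u' i|) : ℤ)) ^ (H ^ S.card) *
        ((a + √((a : ℝ) ^ 2 + 4)) / 2) ^ (p / H + H ^ S.card)) ^ 2) := by
  have hV' : ∀ (b : ℤ) (r : ℕ), 1 ≤ b → 2 ≤ r → Odd r → Pool.Agent.N449.SQ.V b r ≠ a := by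
    intro b r h1 h2 h3
    rw [← V_eq]
    exact hV b r h1 h2 h3
  have h1 := hs_le ha S u u'
  have h0 : 0 ≤ ∑ i ∈ S, Pool.Agent.N449.SQ.hs a ⟨u i, u' i⟩ :=
    Finset.sum_nonneg fun _ _ => Pool.Agent.N449.SQ.hs_nonneg a _
  have he : 0 < (a + √((a : ℝ) ^ 2 + 4)) / 2 := Pool.Agent.N449.SQ.eps_pos a
  rw [sum_eq] at hd ⊢
  constructor
  · intro h2 h3
    rw [U_eq] at h2 h3
    refine (Pool.Agent.K6.H50.SMP.finalU ha hV' hp hp2 S (fun i => ⟨u i, u' i⟩) hH hHp h2 hd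
      h3).trans ?_
    refine mul_le_mul_of_nonneg_right (pow_le_pow_left₀ (by linarith) (by linarith) _) ?_
    exact (pow_pos he _).le
  · intro h2 h3
    rw [V_eq] at h2 h3
    refine (Pool.Agent.K6.H50.SMP.finalV ha hV' hp hp2 S (fun i => ⟨u i, u' i⟩) hH hHp h2 hd
      h3).trans ?_
    refine pow_le_pow_left₀ (mul_nonneg (pow_nonneg (by linarith) _) (pow_pos he _).le) ?_ 2
    refine mul_le_mul_of_nonneg_right (pow_le_pow_left₀ (by linarith) (by linarith) _) ?_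
    exact (pow_pos he _).le

theorem h2e : ((2 : ℤ) + √(((2 : ℤ) : ℝ) ^ 2 + 4)) / 2 = 1 + √2 := by
  have : √(((2 : ℤ) : ℝ) ^ 2 + 4) = 2 * √2 := by
    rw [show (((2 : ℤ) : ℝ) ^ 2 + 4) = 2 ^ 2 * 2 by push_cast; norm_num,
      Real.sqrt_mul (by positivity), Real.sqrt_sq (by norm_num)]
  rw [this]
  push_cast
  ring

theorem hV2 : ∀ (b : ℤ) (r : ℕ), 1 ≤ b → 2 ≤ r → Odd r → V b r ≠ 2 := by
  intro b r hb hr _ h1
  have := Pool.Agent.N449.SQ.three_le_V b hb r hr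
  rw [V_eq] at h1
  omega

/-- Both cases. -/
theorem both {n : ℕ} (hn : n.Prime) (hn2 : n ≠ 2) {x y : ℤ}
    (h : (x : ℝ) + y * √2 = (1 + √2) ^ n) (S : Finset ℕ) (u u' : ℕ → ℤ) (H d : ℕ) (hH : 1 ≤ H)
    (hHp : H ^ S.card < n) (hu : ∀ i ∈ S, |u i| ≤ n ∧ |u' i| ≤ n)
    (hd : (d : ℤ) ∣ ∑ i ∈ S, (u i * U 2 i + u' i * U 2 (i + 1)))
    (hxy : ((d : ℤ) ∣ x ∧ ¬ x ∣ ∑ i ∈ S, (u i * U 2 i + u' i * U 2 (i + 1))) ∨
      ((d : ℤ) ∣ y ∧ ¬ y ∣ ∑ i ∈ S, (u i * U 2 i + u' i * U 2 (i + 1)))) :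
    (d : ℝ) ≤ ((8 * S.card * n) ^ (H ^ S.card) * (1 + √2) ^ (n / H + H ^ S.card)) ^ 2 ∨
      (d : ℝ) ≤ (8 * S.card * n) ^ (H ^ S.card) * (1 + √2) ^ (2 * n / H + H ^ S.card) := by
  obtain ⟨hyU, hxV⟩ := ident h
  obtain ⟨g1, g2⟩ := general (a := 2) (by norm_num) hV2 hn hn2 S u u' H d hH hHp hd
  rw [h2e] at g1 g2
  have hA0 : (0 : ℤ) ≤ ∑ i ∈ S, (|u i| + (2 + 1) * |u' i|) :=
    Finset.sum_nonneg fun _ _ => by positivity
  have hA : (∑ i ∈ S, (|u i| + (2 + 1) * |u' i|)) ≤ 4 * S.card * n := by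
    calc ∑ i ∈ S, (|u i| + (2 + 1) * |u' i|) ≤ ∑ i ∈ S, (4 * (n : ℤ)) := by
          refine Finset.sum_le_sum fun i hi => ?_
          obtain ⟨h1, h2⟩ := hu i hi
          linarith
      _ = 4 * S.card * n := by rw [Finset.sum_const, nsmul_eq_mul]; ring
  have hA' : (2 * ((∑ i ∈ S, (|u i| + (2 + 1) * |u' i|) : ℤ) : ℝ)) ≤ 8 * S.card * n := by
    have : ((∑ i ∈ S, (|u i| + (2 + 1) * |u' i|) : ℤ) : ℝ) ≤ ((4 * S.card * n : ℤ) : ℝ) := by
      exact_mod_cast hA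
    push_cast at this ⊢
    linarith
  have hA0' : (0 : ℝ) ≤ 2 * ((∑ i ∈ S, (|u i| + (2 + 1) * |u' i|) : ℤ) : ℝ) := by
    have : (0 : ℝ) ≤ ((∑ i ∈ S, (|u i| + (2 + 1) * |u' i|) : ℤ) : ℝ) := by exact_mod_cast hA0
    linarith
  have he : (0 : ℝ) < 1 + √2 := by positivity
  rcases hxy with ⟨h1, h2⟩ | ⟨h1, h2⟩
  · left
    refine (g2 ?_ ?_).trans ?_
    · rw [← hxV]
      exact Dvd.dvd.mul_left h1 _
    · rw [← hxV]
      intro h3
      exact h2 ((mul_dvd_mul_iff_left two_ne_zero).1 h3)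
    · exact pow_le_pow_left₀ (by positivity)
        (mul_le_mul_of_nonneg_right (pow_le_pow_left₀ hA0' hA' _) (by positivity)) 2
  · right
    refine (g1 (by rw [← hyU]; exact h1) (by rw [← hyU]; exact h2)).trans ?_
    exact mul_le_mul_of_nonneg_right (pow_le_pow_left₀ hA0' hA' _) (by positivity)

/-- The number of terms. -/
theorem digits {n : ℕ} (hn : n.Prime) (hn2 : n ≠ 2) {x y : ℤ}
    (h : (x : ℝ) + y * √2 = (1 + √2) ^ n) {δ : ℝ} (hδ : 0 < δ) (hδ1 : δ ≤ 1) (d : ℕ)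
    (hdδ : (1 + √2) ^ (δ * n) ≤ (d : ℝ)) (S : Finset ℕ) (u u' : ℕ → ℤ)
    (hu : ∀ i ∈ S, |u i| ≤ n ∧ |u' i| ≤ n)
    (hd : (d : ℤ) ∣ ∑ i ∈ S, (u i * U 2 i + u' i * U 2 (i + 1)))
    (hxy : ((d : ℤ) ∣ x ∧ ¬ x ∣ ∑ i ∈ S, (u i * U 2 i + u' i * U 2 (i + 1))) ∨
      ((d : ℤ) ∣ y ∧ ¬ y ∣ ∑ i ∈ S, (u i * U 2 i + u' i * U 2 (i + 1)))) :
    Real.log n ≤ 4 * S.card * Real.log (17 / δ) := by
  have hS : 1 ≤ S.card := by
    rw [Nat.one_le_iff_ne_zero, Finset.card_ne_zero]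
    by_contra hcon
    rw [Finset.not_nonempty_iff_eq_empty] at hcon
    rw [hcon, Finset.sum_empty] at hxy
    rcases hxy with ⟨-, h2⟩ | ⟨-, h2⟩
    · exact h2 (dvd_zero _)
    · exact h2 (dvd_zero _)
  have hn3 : 3 ≤ n := by
    have := hn.two_le
    omega
  have hnR : (3 : ℝ) ≤ n := by exact_mod_cast hn3
  obtain ⟨s, hs⟩ : ∃ s, s = S.card := ⟨_, rfl⟩
  have hsR : (1 : ℝ) ≤ s := by rw [hs]; exact_mod_cast hS
  have hl17 : 1 ≤ Real.log (17 / δ) := by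
    rw [Real.le_log_iff_exp_le (by positivity)]
    have h1 : Real.exp 1 < 3 := Real.exp_one_lt_d9.trans (by norm_num)
    have h2 : (17 : ℝ) ≤ 17 / δ := by
      rw [le_div_iff₀ hδ]
      linarith
    linarith
  obtain ⟨H, hH⟩ : ∃ H, H = ⌈8 / δ⌉₊ := ⟨_, rfl⟩
  have hH1 : 8 / δ ≤ H := by rw [hH]; exact Nat.le_ceil _
  have hH2 : (H : ℝ) ≤ 9 / δ := by
    have h1 : (H : ℝ) < 8 / δ + 1 := by rw [hH]; exact Nat.ceil_lt_add_one (by positivity)
    have h2 : (1 : ℝ) ≤ 1 / δ := by rw [le_div_iff₀ hδ]; linarith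
    have h3 : 9 / δ = 8 / δ + 1 / δ := by ring
    linarith
  have hH8 : (8 : ℝ) ≤ H := by
    refine le_trans ?_ hH1
    rw [le_div_iff₀ hδ]
    linarith
  have hH0 : (0 : ℝ) < H := by linarith
  have hlH0 : 0 ≤ Real.log H := Real.log_nonneg (by linarith)
  have hlH : Real.log H ≤ Real.log (17 / δ) := by
    apply Real.log_le_log hH0
    refine hH2.trans ?_
    gcongr
    norm_num
  rw [← hs]
  -- trivial cases
  by_cases hsn : n ≤ s
  · have h1 : Real.log n ≤ n := (Real.log_le_sub_one_of_pos (by linarith)).trans (by linarith)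
    have h2 : (n : ℝ) ≤ s := by exact_mod_cast hsn
    nlinarith
  rw [not_le] at hsn
  by_cases hHn : n ≤ H ^ s
  · have h1 : Real.log n ≤ s * Real.log H := by
      rw [← Real.log_pow]
      apply Real.log_le_log (by linarith)
      exact_mod_cast hHn
    have h2 : (s : ℝ) * Real.log H ≤ s * Real.log (17 / δ) :=
      mul_le_mul_of_nonneg_left hlH (by linarith)
    nlinarith
  rw [not_le] at hHn
  -- the bound for `d`
  have hHN : 1 ≤ H := by
    have : (1 : ℝ) ≤ H := by linarith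
    exact_mod_cast this
  have hb := both hn hn2 h S u u' H d hHN (by rw [← hs]; exact hHn) hu hd hxy
  rw [← hs] at hb
  set ε : ℝ := 1 + √2 with hε
  have hsq : (1.4 : ℝ) < √2 := by
    rw [Real.lt_sqrt (by norm_num)]
    norm_num
  have hsq' : √2 < (1.5 : ℝ) := by
    rw [Real.sqrt_lt' (by norm_num)]
    norm_num
  have hε1 : 1 < ε := by linarith
  have hε0 : 0 < ε := by linarith
  have hlε : 3 / 4 ≤ Real.log ε := by
    rw [Real.le_log_iff_exp_le hε0]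
    have h1 : Real.exp (3 / 4) = Real.exp 1 ^ (3 / 4 : ℝ) := by
      rw [← Real.exp_mul]
      norm_num
    have h2 : Real.exp (3 / 4) ^ 4 ≤ ε ^ 4 := by
      rw [← Real.exp_nat_mul]
      have h3 : ((4 : ℕ) : ℝ) * (3 / 4) = ((3 : ℕ) : ℝ) * 1 := by norm_num
      rw [h3, Real.exp_nat_mul]
      have h4 : Real.exp 1 ^ 3 ≤ (2.72 : ℝ) ^ 3 :=
        pow_le_pow_left₀ (Real.exp_pos 1).le (Real.exp_one_lt_d9.le.trans (by norm_num)) 3
      have h5 : (2.4 : ℝ) ^ 4 ≤ ε ^ 4 := pow_le_pow_left₀ (by norm_num) (by linarith) 4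
      have h6 : (2.72 : ℝ) ^ 3 ≤ 2.4 ^ 4 := by norm_num
      linarith
    exact (pow_le_pow_iff_left₀ (Real.exp_pos _).le hε0.le (by norm_num)).1 h2
  have hlε1 : Real.log ε ≤ 1 := by
    rw [Real.log_le_iff_le_exp hε0]
    have := Real.exp_one_gt_d9
    linarith
  obtain ⟨G, hG⟩ : ∃ G : ℝ, G = ((H ^ s : ℕ) : ℝ) := ⟨_, rfl⟩
  have hG0 : 0 < G := by
    rw [hG]
    exact_mod_cast pow_pos hHN s
  obtain ⟨A, hA⟩ : ∃ A : ℝ, A = 8 * s * n := ⟨_, rfl⟩
  have hA1 : 1 ≤ A := by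
    rw [hA]
    nlinarith
  have hlA0 : 0 ≤ Real.log A := Real.log_nonneg hA1
  have hnH : ((n / H : ℕ) : ℝ) ≤ δ * n / 8 := by
    have h1 : ((n / H : ℕ) : ℝ) ≤ n / H := Nat.cast_div_le
    have h2 : (n : ℝ) / H ≤ δ * n / 8 := by
      rw [div_le_iff₀ hH0]
      have h3 : 8 ≤ δ * H := by
        rw [div_le_iff₀ hδ] at hH1
        linarith
      nlinarith
    linarith
  have h2nH : ((2 * n / H : ℕ) : ℝ) ≤ δ * n / 4 := by
    have h1 : ((2 * n / H : ℕ) : ℝ) ≤ ((2 * n : ℕ) : ℝ) / H := Nat.cast_div_le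
    have h2 : ((2 * n : ℕ) : ℝ) / H ≤ δ * n / 4 := by
      rw [div_le_iff₀ hH0]
      have h3 : 8 ≤ δ * H := by
        rw [div_le_iff₀ hδ] at hH1
        linarith
      push_cast
      nlinarith
    linarith
  have hld : δ * n * Real.log ε ≤ Real.log d := by
    rw [← Real.log_rpow hε0]
    exact Real.log_le_log (by positivity) hdδ
  have hd0 : (0 : ℝ) < d := lt_of_lt_of_le (by positivity) hdδ
  have hlog : Real.log d ≤ 2 * G * Real.log A + (δ * n / 4 + 2 * G) * Real.log ε := by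
    have hlε0 : 0 ≤ Real.log ε := by linarith
    rcases hb with hb | hb
    · have h1 := Real.log_le_log hd0 hb
      rw [← hA, Real.log_pow, Real.log_mul (by positivity) (by positivity), Real.log_pow,
        Real.log_pow] at h1
      push_cast at h1
      have h2 : (H : ℝ) ^ s = G := by rw [hG]; push_cast; rfl
      rw [h2] at h1
      nlinarith
    · have h1 := Real.log_le_log hd0 hb
      rw [← hA, Real.log_mul (by positivity) (by positivity), Real.log_pow,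
        Real.log_pow] at h1
      push_cast at h1
      have h2 : (H : ℝ) ^ s = G := by rw [hG]; push_cast; rfl
      rw [h2] at h1
      nlinarith [mul_nonneg hG0.le hlA0, mul_nonneg hG0.le hlε0]
  -- `n ≪ G √n`
  have hsqn : 1 ≤ √(n : ℝ) := by
    rw [Real.one_le_sqrt]
    linarith
  have hsqn2 : √(n : ℝ) * √(n : ℝ) = n := Real.mul_self_sqrt (by linarith)
  have hlogn : Real.log n ≤ 2 * √(n : ℝ) := by
    have h1 : Real.log n = 2 * Real.log √(n : ℝ) := by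
      conv_lhs => rw [← hsqn2]
      rw [Real.log_mul (by positivity) (by positivity)]
      ring
    have h2 : Real.log √(n : ℝ) ≤ √(n : ℝ) - 1 := Real.log_le_sub_one_of_pos (by linarith)
    linarith
  have hlogA : Real.log A ≤ 3 + 2 * Real.log n := by
    have h1 : A ≤ 8 * (n : ℝ) ^ 2 := by
      rw [hA]
      have : (s : ℝ) ≤ n := by exact_mod_cast hsn.le
      nlinarith
    have h2 : Real.log A ≤ Real.log (8 * (n : ℝ) ^ 2) := Real.log_le_log (by linarith) h1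
    rw [Real.log_mul (by norm_num) (by positivity), Real.log_pow] at h2
    have h3 : Real.log 8 ≤ 3 := by
      have h4 : (8 : ℝ) = 2 ^ 3 := by norm_num
      rw [h4, Real.log_pow]
      have := Real.log_two_lt_d9
      push_cast
      linarith
    push_cast at h2
    linarith
  have hmain : δ * √(n : ℝ) ≤ 32 * G := by
    have h1 : 3 / 4 * (δ * n) * Real.log ε ≤ 2 * G * (Real.log A + Real.log ε) := by
      nlinarith
    have h2 : Real.log A + Real.log ε ≤ 8 * √(n : ℝ) := by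
      nlinarith
    have h3 : 9 / 16 * (δ * n) ≤ 2 * G * (8 * √(n : ℝ)) := by
      have h4 : 2 * G * (Real.log A + Real.log ε) ≤ 2 * G * (8 * √(n : ℝ)) :=
        mul_le_mul_of_nonneg_left h2 (by positivity)
      have h5 : 3 / 4 * (δ * n) * (3 / 4) ≤ 3 / 4 * (δ * n) * Real.log ε :=
        mul_le_mul_of_nonneg_left hlε (by positivity)
      linarith
    have h4 : (δ * √(n : ℝ)) * √(n : ℝ) ≤ (32 * G) * √(n : ℝ) := by
      have h5 : (δ * √(n : ℝ)) * √(n : ℝ) = δ * n := by rw [mul_assoc, hsqn2]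
      rw [h5]
      nlinarith
    exact le_of_mul_le_mul_right h4 (by linarith)
  -- the conclusion
  have h1 : Real.log (δ * √(n : ℝ)) ≤ Real.log (32 * G) := Real.log_le_log (by positivity) hmain
  rw [Real.log_mul (by positivity) (by positivity), Real.log_mul (by norm_num) (by positivity),
    Real.log_sqrt (by linarith)] at h1
  have h2 : Real.log G = s * Real.log H := by
    rw [hG]
    push_cast
    rw [Real.log_pow]
  have h3 : Real.log H ≤ Real.log 9 - Real.log δ := by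
    rw [← Real.log_div (by norm_num) hδ.ne']
    exact Real.log_le_log hH0 hH2
  have h4 : Real.log (17 / δ) = Real.log 17 - Real.log δ :=
    Real.log_div (by norm_num) hδ.ne'
  have h5 : Real.log δ ≤ 0 := Real.log_nonpos hδ.le hδ1
  have h6 : Real.log 32 + Real.log 9 ≤ 2 * Real.log 17 := by
    rw [← Real.log_mul (by norm_num) (by norm_num)]
    have h7 : 2 * Real.log 17 = Real.log (17 ^ 2) := by
      rw [Real.log_pow]
      norm_num
    rw [h7]
    exact Real.log_le_log (by norm_num) (by norm_num)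
  have h7 : (0 : ℝ) ≤ Real.log 32 := Real.log_nonneg (by norm_num)
  rw [h2] at h1
  -- `log n ≤ 2 (log 32 - log δ) + 2 s log H ≤ 2 s (log 32 + log 9 - 2 log δ)`
  have h8 : Real.log n ≤ 2 * s * (Real.log 32 - Real.log δ) + 2 * s * Real.log H := by
    nlinarith
  have h9 : 2 * (s : ℝ) * (Real.log 32 - Real.log δ) + 2 * s * Real.log H ≤
      2 * s * (2 * Real.log 17 - 2 * Real.log δ) := by
    have h10 : (Real.log 32 - Real.log δ) + Real.log H ≤ 2 * Real.log 17 - 2 * Real.log δ := by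
      linarith
    calc 2 * (s : ℝ) * (Real.log 32 - Real.log δ) + 2 * s * Real.log H =
        2 * s * ((Real.log 32 - Real.log δ) + Real.log H) := by ring
      _ ≤ _ := mul_le_mul_of_nonneg_left h10 (by linarith)
  rw [h4]
  linarith


end Pool.Agent.K6.H86.PL.Dig
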