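import Pool.Agent.K6.H86.PL.Spr
import Pool.Agent.K6.H86.PL.Dig
import Pool.Agent.K6.H86.SD.Fermat

/-!
# Multiples of large divisors of the solutions are not compressible
-/

set_option autoImplicit false
set_option maxHeartbeats 4000000

namespace Pool.Agent.K6.H86.PL

open Pool.Agent.N449.SQ Finset Pool.Agent.R343.LP Pool.Agent.R343.LI

theorem lz_ph {α : Type} {a : ℕ → α} {l z : ℕ} (h : LZ a l z) :
    ∃ c p : ℕ → ℕ, c 0 = 0 ∧ c z = l ∧ ∀ k < z, Ph a (c k) (c (k + 1)) (p k) := by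
  obtain ⟨c, hc0, hcz, hph⟩ := h
  have : ∀ k, ∃ p, k < z → Ph a (c k) (c (k + 1)) p := by
    intro k
    by_cases hk : k < z
    · rcases hph k hk with h | ⟨h, p, hp0, hp1, hp2⟩
      · exact ⟨0, fun _ => Or.inl h⟩
      · exact ⟨p, fun _ => Or.inr ⟨h, hp0, hp1, hp2⟩⟩
    · exact ⟨0, fun h => absurd h hk⟩
  choose p hp using this
  exact ⟨c, p, hc0, hcz, hp⟩

/-- Words of pairs of integers in base `ε`, highest or lowest letter first. -/
def Compr (L : ℕ) (B : ℤ) (z : ℕ) (X : ℤ) : Prop :=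
  ∃ (a b : ℕ → ℤ) (l : ℕ), l ≤ L ∧ LZ (fun j => (a j, b j)) l z ∧
    (∀ j < l, |a j| ≤ B ∧ |b j| ≤ B) ∧
    (X = ∑ j ∈ range l, (a j * U 2 (l - 1 - j) + b j * U 2 (l - 1 - j + 1)) ∨
      X = ∑ j ∈ range l, (a j * U 2 j + b j * U 2 (j + 1)))

theorem norm_neg_w {k : ℕ} {F : ℤ} (h : IsCoprime (QuadraticAlgebra.norm (w 2 k - 1 : R 2)) F) :
    IsCoprime (QuadraticAlgebra.norm (w 2 (-1 * k) - 1 : R 2)) F := by
  have h5 : w (2 : ℤ) k * w 2 (-k) = 1 := by rw [← w_add, add_neg_cancel, w_zero]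
  have h7 : ((-1 : R 2) ^ k) * (-1) ^ k = 1 := by
    rw [← mul_pow]
    norm_num
  have e : ((QuadraticAlgebra.norm (w 2 (-1 * k) - 1 : R 2) : ℤ) : R 2) =
      (((-1) ^ k * QuadraticAlgebra.norm (w 2 k - 1 : R 2) : ℤ) : R 2) := by
    push_cast
    rw [norm_mul_star, norm_mul_star, star_sub, star_sub, star_one, star_w, star_w', neg_one_mul,
      Int.natAbs_neg, Int.natAbs_natCast, neg_neg]
    linear_combination ((-1) ^ k - (-1 : R 2) ^ k * (-1) ^ k) * h5 +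
      (-1 + w 2 (-k)) * h7
  have e2 : QuadraticAlgebra.norm (w 2 (-1 * k) - 1 : R 2) =
      (-1) ^ k * QuadraticAlgebra.norm (w 2 k - 1 : R 2) := by
    have := congrArg QuadraticAlgebra.re e
    rwa [QuadraticAlgebra.re_intCast, QuadraticAlgebra.re_intCast, Int.cast_id, Int.cast_id] at this
  rw [e2]
  exact ((isCoprime_one_left.neg_left).pow_left).mul_left h

/-- A compressible integer is sparse after multiplication by an integer prime to `F`. -/
theorem sparse {n W z : ℕ} (hn : n.Prime) (hn2 : n ≠ 2) {F : ℤ} (hodd : Odd F)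
    (hF : ((F : ℤ) : R 2) ∣ w 2 ((2 * n : ℕ) : ℤ) + 1 ∨
      ((F : ℤ) : R 2) ∣ w 2 ((2 * n : ℕ) : ℤ) - 1) {B X : ℤ} (hB : 0 ≤ B)
    (hX : Compr (W * n) B z X) :
    ∃ (D : ℤ) (S : Finset ℕ) (u u' : ℕ → ℤ), IsCoprime D F ∧ S.card ≤ (4 * W + 12) ^ z ∧
      (∀ i, |u i| ≤ 3 * B * ((4 * W + 12) ^ z : ℕ) ∧ |u' i| ≤ 3 * B * ((4 * W + 12) ^ z : ℕ)) ∧
      ∑ i ∈ S, (u i * U 2 i + u' i * U 2 (i + 1)) = D * X := by
  obtain ⟨a, b, l, hl, hLZ, hab, hval⟩ := hX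
  set A : Set (R 2) := {v : R 2 | |v.re| ≤ B ∧ |v.im| ≤ B} with hA
  have hA0 : (0 : R 2) ∈ A := by
    rw [hA]
    simpa using hB
  have hAn : ∀ v ∈ A, -v ∈ A := by
    intro v hv
    rw [hA] at hv ⊢
    simpa using hv
  set γ : ℕ → R 2 := fun j => ⟨a j, b j⟩ with hγ
  have hLZ' : LZ γ l z := by
    obtain ⟨c, hc0, hcz, h⟩ := hLZ
    refine ⟨c, hc0, hcz, fun i hi => ?_⟩
    rcases h i hi with h1 | ⟨h1, p, hp0, hp, h2⟩
    · exact Or.inl h1
    · refine Or.inr ⟨h1, p, hp0, hp, fun j hj1 hj2 => ?_⟩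
      have h3 := h2 j hj1 hj2
      simp only [Prod.mk.injEq] at h3
      rw [hγ]
      simp only [h3.1, h3.2]
  obtain ⟨c, p, hc0, hcz, hph⟩ := lz_ph hLZ'
  have hγA : ∀ j < l, γ j ∈ A := fun j hj => hab j hj
  have hT : 2 ^ z * (2 * W + 6) ^ z = (4 * W + 12) ^ z := by
    rw [← mul_pow]
    congr 1
    ring
  have him : ∀ (s : Finset ℕ) (f : ℕ → R 2), (∑ j ∈ s, f j).im = ∑ j ∈ s, (f j).im := by
    intro s f
    induction s using Finset.induction_on with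
    | empty => simp
    | insert i s hi ih => rw [Finset.sum_insert hi, Finset.sum_insert hi,
        QuadraticAlgebra.im_add, ih]
  have hmul : ∀ (D : ℤ) (y : R 2), ((D : R 2) * y).im = D * y.im := by
    intro D y
    simp
  rcases hval with hval | hval
  · obtain ⟨D, hD, hsp⟩ := word (a := 2) (by norm_num) hA0 hAn z W n F 1
      (fun k h1 h2 => by
        rw [one_mul]
        exact cop hn hn2 h1 h2 hodd hF) γ l c p hc0 hcz hph hγA hl
    rw [hT] at hsp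
    obtain ⟨S, u, u', hS, hu, he⟩ := to_pell hsp
    refine ⟨QuadraticAlgebra.norm D, S, u, u', hD, hS, hu, ?_⟩
    rw [he, hmul, him, hval]
    congr 1
    refine Finset.sum_congr rfl fun j _ => ?_
    rw [one_mul, hγ, mul_w_im]
  · obtain ⟨D, hD, hsp⟩ := word (a := 2) (by norm_num) hA0 hAn z W n F (-1)
      (fun k h1 h2 => norm_neg_w (cop hn hn2 h1 h2 hodd hF)) γ l c p hc0 hcz hph hγA hl
    rw [hT] at hsp
    have hsp2 := hsp.shift ((l : ℤ) - 1)
    have e1 : w 2 ((l : ℤ) - 1) * (((QuadraticAlgebra.norm D : ℤ) : R 2) *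
        ∑ j ∈ range l, γ j * w 2 (-1 * (l - 1 - j : ℕ))) =
        ((QuadraticAlgebra.norm D : ℤ) : R 2) * ∑ j ∈ range l, γ j * w 2 (j : ℕ) := by
      rw [mul_left_comm, Finset.mul_sum]
      congr 1
      refine Finset.sum_congr rfl fun j hj => ?_
      have hj' := Finset.mem_range.1 hj
      rw [mul_left_comm, ← w_add]
      congr 2
      push_cast [Nat.cast_sub (show j ≤ l - 1 by omega), Nat.cast_sub (show 1 ≤ l by omega)]
      ring
    rw [e1] at hsp2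
    obtain ⟨S, u, u', hS, hu, he⟩ := to_pell hsp2
    refine ⟨QuadraticAlgebra.norm D, S, u, u', hD, hS, hu, ?_⟩
    rw [he, hmul, him, hval]
    congr 1
    refine Finset.sum_congr rfl fun j _ => ?_
    rw [hγ, mul_w_im]

/-- The number of phrases, with the library's Lucas sequences. -/
theorem phrases {n : ℕ} (hn : n.Prime) (hn2 : n ≠ 2) {x y : ℤ}
    (h : (x : ℝ) + y * √2 = (1 + √2) ^ n) {δ : ℝ} (hδ : 0 < δ) (hδ1 : δ ≤ 1) (d : ℕ)
    (hdδ : (1 + √2) ^ (δ * n) ≤ (d : ℝ)) {W z : ℕ} {B X : ℤ} (hBn : 9 * B ^ 2 ≤ n)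
    (hX : Compr (W * n) B z X) (hdX : (d : ℤ) ∣ X)
    (hxy : ((d : ℤ) ∣ x ∧ ¬ x ∣ X) ∨ ((d : ℤ) ∣ y ∧ ¬ y ∣ X)) :
    Real.log n ≤ 4 * ((4 * W + 12) ^ z : ℕ) * Real.log (17 / δ) := by
  obtain ⟨hyU, hxV⟩ := Dig.ident h
  rw [Dig.U_eq] at hyU
  rw [Dig.V_eq] at hxV
  have hno : Odd n := hn.odd_of_ne_two hn2
  have hyodd : Odd y := by
    rw [hyU, Int.odd_iff, odd_U]
    obtain ⟨j, hj⟩ := hno
    omega
  have hxodd : Odd x := by
    have := V_mod n
    rw [← hxV] at this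
    rw [Int.odd_iff]
    omega
  have hxd : ((x : ℤ) : R 2) ∣ w 2 ((2 * n : ℕ) : ℤ) - 1 := by
    rw [v_rel 2 hno, ← hxV]
    push_cast
    exact ⟨2 * w 2 n, by ring⟩
  have hyd : ((y : ℤ) : R 2) ∣ w 2 ((2 * n : ℕ) : ℤ) + 1 := by
    rw [u_rel 2 hno, ← hyU]
    exact dvd_mul_right _ _
  -- the case `B < 0`
  rcases lt_or_ge B 0 with hB | hB
  · exfalso
    obtain ⟨a, b, l, hl, hLZ, hab, hval⟩ := hX
    have hl0 : l = 0 := by
      by_contra h0
      have h1 := (hab 0 (by omega)).1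
      have h2 := abs_nonneg (a 0)
      omega
    subst hl0
    have hX0 : X = 0 := by rcases hval with h | h <;> simpa using h
    rw [hX0] at hxy
    rcases hxy with ⟨-, h2⟩ | ⟨-, h2⟩ <;> exact h2 (dvd_zero _)
  obtain ⟨T, hT⟩ : ∃ T, T = (4 * W + 12) ^ z := ⟨_, rfl⟩
  rw [← hT]
  have hT1 : 1 ≤ T := by rw [hT]; exact Nat.one_le_pow _ _ (by omega)
  have hTR : (1 : ℝ) ≤ T := by exact_mod_cast hT1
  have hl17 : 1 ≤ Real.log (17 / δ) := by
    rw [Real.le_log_iff_exp_le (by positivity)]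
    have h1 : Real.exp 1 < 3 := Real.exp_one_lt_d9.trans (by norm_num)
    have h2 : (17 : ℝ) ≤ 17 / δ := by
      rw [le_div_iff₀ hδ]
      linarith
    linarith
  have hn0 : (0 : ℝ) < n := by exact_mod_cast hn.pos
  -- the main case
  have main : ∀ F : ℤ, Odd F → (((F : ℤ) : R 2) ∣ w 2 ((2 * n : ℕ) : ℤ) + 1 ∨
      ((F : ℤ) : R 2) ∣ w 2 ((2 * n : ℕ) : ℤ) - 1) → (F = x ∨ F = y) → (d : ℤ) ∣ F →
      ¬ F ∣ X → Real.log n ≤ 4 * (T : ℝ) * Real.log (17 / δ) := by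
    intro F hFo hF hFxy hdF hFX
    obtain ⟨D, S, u, u', hD, hS, hu, he⟩ := sparse hn hn2 hFo hF hB hX
    rw [← hT] at hS hu
    by_cases hBT : 3 * B * T ≤ n
    · have hdvd : (d : ℤ) ∣ ∑ i ∈ S, (u i * Dig.U 2 i + u' i * Dig.U 2 (i + 1)) := by
        simp only [Dig.U_eq]
        rw [he]
        exact Dvd.dvd.mul_left hdX _
      have hnd : ¬ F ∣ ∑ i ∈ S, (u i * Dig.U 2 i + u' i * Dig.U 2 (i + 1)) := by
        simp only [Dig.U_eq]
        rw [he]
        intro hh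
        exact hFX (hD.symm.dvd_of_dvd_mul_left hh)
      have h1 := Dig.digits hn hn2 h hδ hδ1 d hdδ S u u'
        (fun i _ => ⟨(hu i).1.trans hBT, (hu i).2.trans hBT⟩) hdvd (by
          rcases hFxy with rfl | rfl
          · exact Or.inl ⟨hdF, hnd⟩
          · exact Or.inr ⟨hdF, hnd⟩)
      have h2 : (S.card : ℝ) ≤ T := by exact_mod_cast hS
      refine h1.trans ?_
      gcongr
    · rw [not_le] at hBT
      have h1 : (n : ℤ) < (T : ℤ) ^ 2 := by
        have hnz : (0 : ℤ) < n := by exact_mod_cast hn.pos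
        have h2 : (n : ℤ) ^ 2 < (3 * B * T) ^ 2 := by
          apply pow_lt_pow_left₀ hBT hnz.le (by norm_num)
        have h3 : (3 * B * T) ^ 2 = 9 * B ^ 2 * (T : ℤ) ^ 2 := by ring
        have h4 : 9 * B ^ 2 * (T : ℤ) ^ 2 ≤ n * (T : ℤ) ^ 2 :=
          mul_le_mul_of_nonneg_right hBn (by positivity)
        have h5 : (n : ℤ) * n < n * (T : ℤ) ^ 2 := by
          calc (n : ℤ) * n = (n : ℤ) ^ 2 := by ring
            _ < n * (T : ℤ) ^ 2 := by rw [h3] at h2; exact h2.trans_le h4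
        exact lt_of_mul_lt_mul_left h5 hnz.le
      have h6 : (n : ℝ) ≤ (T : ℝ) ^ 2 := by exact_mod_cast h1.le
      have h7 : Real.log n ≤ 2 * Real.log T := by
        have := Real.log_le_log hn0 h6
        rwa [Real.log_pow, Nat.cast_ofNat] at this
      have h8 : Real.log T ≤ T := (Real.log_le_sub_one_of_pos (by linarith)).trans (by linarith)
      nlinarith
  rcases hxy with ⟨h1, h2⟩ | ⟨h1, h2⟩
  · exact main x hxodd (Or.inr hxd) (Or.inl rfl) h1 h2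
  · exact main y hyodd (Or.inl hyd) (Or.inr rfl) h1 h2

/-- The solutions are large. -/
theorem large {n : ℕ} (hn3 : 3 ≤ n) (hno : Odd n) {x y : ℤ}
    (h : (x : ℝ) + y * √2 = (1 + √2) ^ n) {δ : ℝ} (hδ : δ ≤ 1 / 3) :
    1 < x ∧ 1 < y ∧ (1 + √2) ^ (δ * n) ≤ (x : ℝ) ∧ (1 + √2) ^ (δ * n) ≤ (y : ℝ) := by
  obtain ⟨hyU, hxV⟩ := Dig.ident h
  rw [Dig.U_eq] at hyU
  rw [Dig.V_eq] at hxV
  have hs2 : √(2 : ℝ) ^ 2 = 2 := Real.sq_sqrt (by norm_num)
  have hs2' : (1.4 : ℝ) < √2 := by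
    rw [Real.lt_sqrt (by norm_num)]
    norm_num
  have hs2'' : √2 < (1.5 : ℝ) := by
    rw [Real.sqrt_lt' (by norm_num)]
    norm_num
  -- the equation
  have heq : (x : ℝ) ^ 2 - 2 * y ^ 2 = -1 := by
    obtain ⟨h1, h2⟩ := w_re_im 2 n
    have h3 := norm_mul_star (w (2 : ℤ) n)
    rw [star_w, hno.neg_one_pow] at h3
    have h5 : w (2 : ℤ) n * w 2 (-n) = 1 := by rw [← w_add, add_neg_cancel, w_zero]
    have h4 : ((QuadraticAlgebra.norm (w 2 (n : ℤ) : R 2) : ℤ) : R 2) = ((-1 : ℤ) : R 2) := by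
      rw [h3]
      push_cast
      linear_combination (-1 : R 2) * h5
    have h6 := congrArg QuadraticAlgebra.re h4
    rw [QuadraticAlgebra.re_intCast, QuadraticAlgebra.re_intCast, Int.cast_id, Int.cast_id,
      QuadraticAlgebra.norm_def, h1, h2] at h6
    have h7 := V_eq 2 n
    rw [← hyU] at h6 h7
    rw [← hxV] at h7
    have h8 : x = U 2 (n + 1) - y := by linarith
    have h9 : x ^ 2 - 2 * y ^ 2 = -1 := by
      rw [h8]
      linear_combination h6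
    exact_mod_cast h9
  obtain ⟨t, ht⟩ : ∃ t : ℝ, t = (1 + √2) ^ ((n : ℝ) / 3) := ⟨_, rfl⟩
  have hε1 : (1 : ℝ) < 1 + √2 := by linarith
  have ht1 : 1 + √2 ≤ t := by
    rw [ht]
    calc 1 + √2 = (1 + √2) ^ (1 : ℝ) := (Real.rpow_one _).symm
      _ ≤ (1 + √2) ^ ((n : ℝ) / 3) := by
        apply Real.rpow_le_rpow_of_exponent_le hε1.le
        rw [le_div_iff₀ (by norm_num)]
        have : (3 : ℝ) ≤ n := by exact_mod_cast hn3
        linarith
  have ht3 : t ^ 3 = (1 + √2) ^ n := by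
    rw [ht, ← Real.rpow_natCast, ← Real.rpow_mul (by positivity), ← Real.rpow_natCast (1 + √2) n]
    congr 1
    push_cast
    ring
  rw [← ht3] at h
  have ht2 : (2.4 : ℝ) ≤ t := by linarith
  have ht30 : 0 < t ^ 3 := by positivity
  have hconj : ((x : ℝ) - y * √2) * t ^ 3 = -1 := by
    rw [← h]
    linear_combination heq - (y : ℝ) ^ 2 * hs2
  have hneg : (x : ℝ) - y * √2 < 0 := by
    by_contra hcon
    rw [not_lt] at hcon
    have := mul_nonneg hcon ht30.le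
    linarith
  have hge : -1 ≤ (x : ℝ) - y * √2 := by
    by_contra hcon
    rw [not_le] at hcon
    have h13 : (1 : ℝ) ≤ t ^ 3 := one_le_pow₀ (by linarith)
    nlinarith
  have htt : t * 5.76 ≤ t ^ 3 := by nlinarith [mul_self_nonneg (t - 2.4)]
  have hx : t ≤ x := by nlinarith
  have hy : t ≤ y := by
    have h1 : t ^ 3 < 2 * (y * √2) := by linarith
    have h2 : 0 < (y : ℝ) := by
      by_contra hcon
      rw [not_lt] at hcon
      nlinarith
    nlinarith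
  have hδn : (1 + √2) ^ (δ * n) ≤ t := by
    rw [ht]
    apply Real.rpow_le_rpow_of_exponent_le hε1.le
    have : (0 : ℝ) ≤ n := Nat.cast_nonneg n
    have := mul_le_mul_of_nonneg_right hδ this
    linarith
  refine ⟨?_, ?_, hδn.trans hx, hδn.trans hy⟩
  · have : (1 : ℝ) < x := by linarith
    exact_mod_cast this
  · have : (1 : ℝ) < y := by linarith
    exact_mod_cast this

/-- Euclid's lemma. -/
theorem euclid {n : ℕ} (hn : n.Prime) (hn2 : n ≠ 2) {x y : ℤ}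
    (h : (x : ℝ) + y * √2 = (1 + √2) ^ n) {K W z : ℕ} {B : ℤ} (hBn : 9 * B ^ 2 ≤ n)
    (X : Fin K → ℤ) (hX : ∀ i, Compr (W * n) B z (X i))
    (hlarge : (51 * K) ^ (4 * (4 * W + 12) ^ z) < n) {F : ℤ} (hF : F = x ∨ F = y)
    (hdvd : F ∣ ∏ i, X i) : ∃ i, F ∣ X i := by
  have hn3 : 3 ≤ n := by
    have := hn.two_le
    omega
  have hno : Odd n := hn.odd_of_ne_two hn2
  have hl1 := large hn3 hno h (δ := 1 / 3) le_rfl
  have hF1 : 1 < F := by
    rcases hF with rfl | rfl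
    · exact hl1.1
    · exact hl1.2.1
  obtain ⟨i, hi⟩ := Pool.Agent.K6.H86.SD.exists_large hF1 X hdvd
  have hK : 1 ≤ K := by
    by_contra hK0
    have : K = 0 := by omega
    subst this
    exact i.elim0
  refine ⟨i, ?_⟩
  by_contra hcon
  have hKR : (1 : ℝ) ≤ K := by exact_mod_cast hK
  set δ : ℝ := 1 / (3 * K) with hδ
  have hδ0 : 0 < δ := by positivity
  have hδ1 : δ ≤ 1 := by
    rw [hδ, div_le_one (by positivity)]
    linarith
  set d : ℕ := Int.gcd (X i) F with hd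
  have hε1 : (1 : ℝ) < 1 + √2 := by
    have : 0 < √(2 : ℝ) := by positivity
    linarith
  have hdδ : (1 + √2) ^ (δ * n) ≤ (d : ℝ) := by
    refine le_of_pow_le_pow_left₀ (by omega : K ≠ 0) (Nat.cast_nonneg d) ?_
    have h1 : ((1 + √2) ^ (δ * n)) ^ K = (1 + √2) ^ ((1 / 3 : ℝ) * n) := by
      rw [← Real.rpow_natCast, ← Real.rpow_mul (by positivity)]
      congr 1
      rw [hδ]
      field_simp
    rw [h1]
    have h2 : (1 + √2) ^ ((1 / 3 : ℝ) * n) ≤ (F : ℝ) := by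
      rcases hF with rfl | rfl
      · exact hl1.2.2.1
      · exact hl1.2.2.2
    refine h2.trans ?_
    have h3 : ((F : ℤ) : ℝ) ≤ (((d : ℤ) ^ K : ℤ) : ℝ) := by exact_mod_cast hi
    push_cast at h3
    exact h3
  have hdF : (d : ℤ) ∣ F := Int.gcd_dvd_right _ _
  have hdX : (d : ℤ) ∣ X i := Int.gcd_dvd_left _ _
  have key := phrases hn hn2 h hδ0 hδ1 d hdδ hBn (hX i) hdX (by
    rcases hF with rfl | rfl
    · exact Or.inl ⟨hdF, hcon⟩
    · exact Or.inr ⟨hdF, hcon⟩)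
  have e : 17 / δ = ((51 * K : ℕ) : ℝ) := by
    rw [hδ]
    push_cast
    field_simp
    norm_num
  rw [e] at key
  have h4 : Real.log n ≤ Real.log (((51 * K) ^ (4 * (4 * W + 12) ^ z) : ℕ) : ℝ) := by
    rw [Nat.cast_pow, Real.log_pow]
    push_cast at key ⊢
    exact key
  have hn0 : (0 : ℝ) < n := by exact_mod_cast hn.pos
  have h5 : (n : ℝ) ≤ (((51 * K) ^ (4 * (4 * W + 12) ^ z) : ℕ) : ℝ) := by
    rwa [Real.log_le_log_iff hn0 (by positivity)] at h4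
  have h6 : n ≤ (51 * K) ^ (4 * (4 * W + 12) ^ z) := by exact_mod_cast h5
  omega

end Pool.Agent.K6.H86.PL
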