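import Pool.Agent.K6.H86.PL.Cop
import Pool.Agent.R343.LI1

/-!
# Words with few phrases in base `ε` and sums of few Pell numbers
-/

set_option autoImplicit false

namespace Pool.Agent.K6.H86.PL

open QuadraticAlgebra Pool.Agent.N449.SQ Finset Pool.Agent.R343.LP Pool.Agent.R343.LI

/-- sums of `T` terms `v ε ^ l` -/
def SZ (a : ℤ) (A : Set (R a)) (T : ℕ) (y : R a) : Prop :=
  ∃ (l : Fin T → ℤ) (v : Fin T → R a), (∀ j, v j ∈ A) ∧ y = ∑ j, v j * w a (l j)

variable {a : ℤ} {A : Set (R a)} {T T' : ℕ} {y y' : R a}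

theorem SZ.add (h : SZ a A T y) (h' : SZ a A T' y') : SZ a A (T + T') (y + y') := by
  obtain ⟨l, v, hv, rfl⟩ := h
  obtain ⟨l', v', hv', rfl⟩ := h'
  refine ⟨Fin.append l l', Fin.append v v', ?_, ?_⟩
  · intro j
    refine Fin.addCases (fun i => ?_) (fun i => ?_) j
    · rw [Fin.append_left]; exact hv i
    · rw [Fin.append_right]; exact hv' i
  · rw [Fin.sum_univ_add]
    simp only [Fin.append_left, Fin.append_right]

theorem SZ.neg (hA : ∀ v ∈ A, -v ∈ A) (h : SZ a A T y) : SZ a A T (-y) := by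
  obtain ⟨l, v, hv, rfl⟩ := h
  refine ⟨l, fun j => -v j, fun j => hA _ (hv j), ?_⟩
  rw [← Finset.sum_neg_distrib]
  exact Finset.sum_congr rfl fun j _ => by ring

theorem SZ.shift (h : SZ a A T y) (m : ℤ) : SZ a A T (w a m * y) := by
  obtain ⟨l, v, hv, rfl⟩ := h
  refine ⟨fun j => m + l j, v, hv, ?_⟩
  rw [Finset.mul_sum]
  refine Finset.sum_congr rfl fun j _ => ?_
  rw [w_add]
  ring

theorem SZ.mono (h0 : (0 : R a) ∈ A) (h : SZ a A T y) (hT : T ≤ T') : SZ a A T' y := by
  obtain ⟨s, rfl⟩ := Nat.exists_eq_add_of_le hT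
  have h2 : SZ a A s 0 := ⟨fun _ => 0, fun _ => 0, fun _ => h0, by simp⟩
  have := h.add h2
  rwa [add_zero] at this

theorem star_w' (a m : ℤ) : star (w a m) = (-1) ^ m.natAbs * w a (-m) := by
  obtain ⟨n, rfl | rfl⟩ := m.eq_nat_or_neg
  · rw [star_w, Int.natAbs_natCast]
  · rw [Int.natAbs_neg, Int.natAbs_natCast, neg_neg]
    have h5 : w a (-(n : ℤ)) * w a n = 1 := by rw [← w_add, neg_add_cancel, w_zero]
    have h6 : star (w a (-(n : ℤ))) * star (w a n) = 1 := by
      rw [← star_mul', h5, star_one]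
    rw [star_w] at h6
    have h7 : ((-1 : R a) ^ n) * (-1) ^ n = 1 := by
      rw [← mul_pow]
      norm_num
    linear_combination ((-1) ^ n * w a n) * h6 - (star (w a (-(n : ℤ))) * (w a (-(n : ℤ)) * w a n)) * h7
      - star (w a (-(n : ℤ))) * h5

theorem SZ.star_fac (hA : ∀ v ∈ A, -v ∈ A) (h : SZ a A T y) (m : ℤ) :
    SZ a A (2 * T) (star (w a m - 1) * y) := by
  rw [star_sub, star_one, star_w', sub_mul, one_mul, two_mul, sub_eq_add_neg]
  refine SZ.add ?_ (h.neg hA)
  rcases neg_one_pow_eq_or (R a) m.natAbs with h1 | h1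
  · rw [h1, one_mul]
    exact h.shift _
  · rw [h1]
    have := (h.shift (-m)).neg hA
    rwa [show -(w a (-m) * y) = -1 * w a (-m) * y by ring] at this

/-- the denominator, as an element of the ring -/
theorem den_lift (p : ℕ → ℕ) (S : ℕ → Prop) (F : ℤ) (s : ℤ) (hA0 : (0 : R a) ∈ A)
    (hA : ∀ v ∈ A, -v ∈ A) :
    ∀ z : ℕ, (∀ k < z, S k → 0 < p k →
      IsCoprime (QuadraticAlgebra.norm (w a (s * p k) - 1 : R a)) F) →
      ∃ D : R a, IsCoprime (QuadraticAlgebra.norm D) F ∧
        den (s₁ a (w a s)) p S z = s₁ a D ∧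
        ∀ (T : ℕ) (y : R a), SZ a A T y → SZ a A (2 ^ z * T) (star D * y) := by
  intro z
  induction z with
  | zero =>
    intro _
    refine ⟨1, ?_, ?_, fun T y h => ?_⟩
    · rw [map_one]
      exact isCoprime_one_left
    · rw [den, Finset.range_zero, Finset.prod_empty, map_one]
    · rw [star_one, one_mul, pow_zero, one_mul]
      exact h
  | succ z ih =>
    intro h
    obtain ⟨D, hD1, hD2, hD3⟩ := ih fun k hk => h k (by omega)
    have hden : den (s₁ a (w a s)) p S (z + 1) =
        den (s₁ a (w a s)) p S z * fac (s₁ a (w a s)) p S z := by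
      unfold den
      rw [Finset.prod_range_succ]
    by_cases hS : S z ∧ 0 < p z
    · have hw : ∀ k : ℕ, w a s ^ k = w a (s * k) := by
        intro k
        induction k with
        | zero => simp [w_zero]
        | succ k ihk =>
          rw [pow_succ, ihk, ← w_add]
          congr 1
          push_cast
          ring
      have hf : fac (s₁ a (w a s)) p S z = s₁ a (w a (s * p z) - 1) := by
        unfold fac
        rw [if_pos hS, map_sub, map_one, ← hw, map_pow]
      refine ⟨D * (w a (s * p z) - 1), ?_, ?_, fun T y hy => ?_⟩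
      · rw [map_mul]
        exact hD1.mul_left (h z (by omega) hS.1 hS.2)
      · rw [hden, hD2, hf, map_mul]
      · have h1 := (hD3 T y hy).star_fac hA (s * p z)
        rw [star_mul']
        have e1 : 2 ^ (z + 1) * T = 2 * (2 ^ z * T) := by ring
        have e2 : star D * star (w a (s * p z) - 1) * y =
            star (w a (s * p z) - 1) * (star D * y) := by ring
        rw [e1, e2]
        exact h1
    · refine ⟨D, hD1, ?_, fun T y hy => ?_⟩
      · rw [hden, hD2]
        unfold fac
        rw [if_neg hS, mul_one]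
      · refine (hD3 T y hy).mono hA0 ?_
        exact Nat.mul_le_mul_right _ (Nat.pow_le_pow_right (by norm_num) (Nat.le_succ z))

/-- One word; `s = 1`: highest letter first, `s = -1`: lowest letter first. -/
theorem word (ha : 1 ≤ a) (hA0 : (0 : R a) ∈ A) (hA : ∀ v ∈ A, -v ∈ A) (z W E : ℕ) (F s : ℤ)
    (hF : ∀ k : ℕ, 0 < k → k < E → IsCoprime (QuadraticAlgebra.norm (w a (s * k) - 1 : R a)) F)
    (γ : ℕ → R a) (N : ℕ) (c p : ℕ → ℕ) (hc0 : c 0 = 0) (hcz : c z = N)
    (hph : ∀ i < z, Ph γ (c i) (c (i + 1)) (p i)) (hγ : ∀ j < N, γ j ∈ A) (hN : N ≤ W * E) :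
    ∃ D : R a, IsCoprime (QuadraticAlgebra.norm D) F ∧
      SZ a A (2 ^ z * (2 * W + 6) ^ z) (((QuadraticAlgebra.norm D : ℤ) : R a) *
        ∑ j ∈ range N, γ j * w a (s * (N - 1 - j : ℕ))) := by
  have hcmono : ∀ i < z, c i ≤ c (i + 1) := by
    intro i hi
    rcases hph i hi with h | ⟨h, _⟩
    · omega
    · exact h
  have hcL : ∀ i ≤ z, c i ≤ N := by
    intro i hi
    rw [← hcz]
    have : ∀ j, i + j ≤ z → c i ≤ c (i + j) := by
      intro j
      induction j with
      | zero => intro _; exact le_rfl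
      | succ j ih =>
        intro hj
        exact (ih (by omega)).trans (hcmono (i + j) (by omega))
    have h1 := this (z - i) (by omega)
    have h2 : i + (z - i) = z := by omega
    rwa [h2] at h1
  let S : ℕ → Prop := fun k => p k < E
  obtain ⟨D, hD1, hD2, hD3⟩ := den_lift p S F s hA0 hA z fun k _ h h' => hF (p k) h' h
  obtain ⟨-, hm⟩ := mixed (s₁ a (w a s)) (fun j => s₁ a (γ j)) ((s₁ a) '' A)
    ⟨0, hA0, map_zero _⟩
    (by
      rintro _ ⟨v, hv, rfl⟩
      exact ⟨-v, hA v hv, map_neg _ _⟩) c p hc0 z N W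
    (fun j hj => ⟨γ j, hγ j hj, rfl⟩) hcL
    (fun i hi => by
      rcases hph i hi with h | ⟨h1, h2, h3, h4⟩
      · exact Or.inl h
      · exact Or.inr ⟨h1, h2, h3, fun j hj1 hj2 => by
          show s₁ a (γ j) = s₁ a (γ (j - p i))
          rw [h4 j hj1 hj2]⟩) S
    (fun i hi => by
      rcases Nat.lt_or_ge (p i) E with h | h
      · exact Or.inl h
      · exact Or.inr ((hcL (i + 1) (by omega)).trans (hN.trans (Nat.mul_le_mul_left _ h))))
    z le_rfl
  obtain ⟨l, v, hv, he⟩ := hm N (by rw [hcz])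
  choose u hu1 hu2 using hv
  have hw : ∀ k : ℕ, w a s ^ k = w a (s * k) := by
    intro k
    induction k with
    | zero => simp [w_zero]
    | succ k ihk =>
      rw [pow_succ, ihk, ← w_add]
      congr 1
      push_cast
      ring
  refine ⟨D, hD1, ?_⟩
  have h1 : D * ∑ j ∈ range N, γ j * w a (s * (N - 1 - j : ℕ)) = ∑ j, u j * w a (s * l j) := by
    apply s₁_inj ha
    rw [hD2, P_eq] at he
    simp only [smul_eq_mul] at he
    rw [map_mul, map_sum, map_sum]
    rw [show ∑ j ∈ range N, s₁ a (γ j * w a (s * (N - 1 - j : ℕ))) =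
      ∑ j ∈ range N, s₁ a (w a s) ^ (N - 1 - j) * s₁ a (γ j) from
        Finset.sum_congr rfl fun j _ => by rw [map_mul, ← map_pow, hw, mul_comm], he]
    refine Finset.sum_congr rfl fun j _ => ?_
    rw [← hu2 j, map_mul, ← map_pow, hw, mul_comm]
  have h2 : SZ a A ((2 * W + 6) ^ z) (D * ∑ j ∈ range N, γ j * w a (s * (N - 1 - j : ℕ))) :=
    ⟨fun j => s * l j, u, hu1, h1⟩
  have h3 := hD3 _ _ h2
  rw [norm_mul_star]
  have e : star D * (D * ∑ j ∈ range N, γ j * w a (s * (N - 1 - j : ℕ))) =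
      D * star D * ∑ j ∈ range N, γ j * w a (s * (N - 1 - j : ℕ)) := by ring
  rwa [e] at h3

/-- The imaginary part of a sparse element, for the Pell numbers. -/
theorem to_pell {B : ℤ} {T : ℕ} {y : R 2}
    (h : SZ 2 {v : R 2 | |v.re| ≤ B ∧ |v.im| ≤ B} T y) :
    ∃ (S : Finset ℕ) (u u' : ℕ → ℤ), S.card ≤ T ∧ (∀ i, |u i| ≤ 3 * B * T ∧ |u' i| ≤ 3 * B * T) ∧
      ∑ i ∈ S, (u i * U 2 i + u' i * U 2 (i + 1)) = y.im := by
  classical
  obtain ⟨l, v, hv, rfl⟩ := h
  -- exponents which are natural numbers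
  have key : ∀ j, ∃ r : R 2, |r.re| ≤ 3 * B ∧ |r.im| ≤ 3 * B ∧
      (v j * w 2 (l j)).im = (r * w 2 ((l j).natAbs : ℕ)).im := by
    intro j
    obtain ⟨h1, h2⟩ := hv j
    have hB : 0 ≤ B := (abs_nonneg _).trans h1
    rcases le_total 0 (l j) with h | h
    · refine ⟨v j, by linarith, by linarith, ?_⟩
      rw [Int.natAbs_of_nonneg h]
    · have e : ((l j).natAbs : ℤ) = -(l j) := by omega
      have him : ∀ z : R 2, z.im = -(star z).im := by
        intro z
        simp
      have h3 : (v j * w 2 (l j)).im =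
          (-((-1) ^ (l j).natAbs * star (v j)) * w 2 ((l j).natAbs : ℕ)).im := by
        rw [him, star_mul', star_w', e]
        rw [show -((-1) ^ (l j).natAbs * star (v j)) * w 2 (-(l j)) =
          -(star (v j) * ((-1) ^ (l j).natAbs * w 2 (-(l j)))) by ring]
        simp only [QuadraticAlgebra.im_neg]
      have h4 : |(star (v j)).re| ≤ 3 * B ∧ |(star (v j)).im| ≤ 3 * B := by
        have e1 : (star (v j)).re = (v j).re + 2 * (v j).im := by simp
        have e2 : (star (v j)).im = -(v j).im := by simp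
        rw [e1, e2, abs_neg]
        constructor
        · calc |(v j).re + 2 * (v j).im| ≤ |(v j).re| + |2 * (v j).im| := abs_add_le _ _
            _ = |(v j).re| + 2 * |(v j).im| := by rw [abs_mul]; norm_num
            _ ≤ 3 * B := by linarith
        · linarith
      refine ⟨-((-1) ^ (l j).natAbs * star (v j)), ?_, ?_, h3⟩
      · rcases neg_one_pow_eq_or (R 2) (l j).natAbs with h5 | h5
        · rw [h5, one_mul, QuadraticAlgebra.re_neg, abs_neg]
          exact h4.1
        · rw [h5, neg_one_mul, neg_neg]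
          exact h4.1
      · rcases neg_one_pow_eq_or (R 2) (l j).natAbs with h5 | h5
        · rw [h5, one_mul, QuadraticAlgebra.im_neg, abs_neg]
          exact h4.2
        · rw [h5, neg_one_mul, neg_neg]
          exact h4.2
  choose r hr1 hr2 hr3 using key
  set f : Fin T → ℕ := fun j => (l j).natAbs with hf
  have hbound : ∀ (g : Fin T → ℤ) (C : ℤ), (∀ j, |g j| ≤ C) → ∀ i, |∑ j with f j = i, g j| ≤
      C * T := by
    intro g C hg i
    rcases Nat.eq_zero_or_pos T with rfl | hT
    · simp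
    have hC : 0 ≤ C := (abs_nonneg _).trans (hg ⟨0, hT⟩)
    calc |∑ j with f j = i, g j| ≤ ∑ j with f j = i, |g j| := Finset.abs_sum_le_sum_abs _ _
      _ ≤ ∑ j, |g j| := Finset.sum_le_sum_of_subset_of_nonneg (Finset.filter_subset _ _)
          fun _ _ _ => abs_nonneg _
      _ ≤ ∑ _j : Fin T, C := Finset.sum_le_sum fun j _ => hg j
      _ = C * T := by simp [mul_comm]
  refine ⟨Finset.univ.image f, fun i => ∑ j with f j = i, (r j).re,
    fun i => ∑ j with f j = i, (r j).im, ?_, fun i => ⟨?_, ?_⟩, ?_⟩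
  · exact Finset.card_image_le.trans (by simp)
  · exact hbound _ _ hr1 i
  · exact hbound _ _ hr2 i
  · have him : (∑ j, v j * w 2 (l j)).im = ∑ j, (v j * w 2 (l j)).im := by
      have : ∀ s : Finset (Fin T), (∑ j ∈ s, v j * w 2 (l j)).im =
          ∑ j ∈ s, (v j * w 2 (l j)).im := by
        intro s
        induction s using Finset.induction_on with
        | empty => simp
        | insert i s hi ih => rw [Finset.sum_insert hi, Finset.sum_insert hi,
            QuadraticAlgebra.im_add, ih]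
      exact this _
    rw [him, ← Finset.sum_fiberwise_of_maps_to (g := f) (t := Finset.univ.image f)
      (fun j _ => Finset.mem_image_of_mem f (Finset.mem_univ j))]
    refine Finset.sum_congr rfl fun i _ => ?_
    rw [Finset.sum_mul, Finset.sum_mul, ← Finset.sum_add_distrib]
    refine Finset.sum_congr rfl fun j hj => ?_
    have hij : (l j).natAbs = i := (Finset.mem_filter.1 hj).2
    rw [hr3 j, hij]
    have := mul_w_im 2 (r j).re (r j).im i
    rw [← this]

end Pool.Agent.K6.H86.PL
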